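import Mathlib
import Pool.Agent.Results.MP_f75ac6_al.NoMaximal

/-! Divisors of finite groups form inclusive varieties. -/

namespace Run7.h675.IV

open Pool.Agent.Results.MP_f75ac6_al.NoMaximal

/-- `pw x n` is the power `x ^ (n + 1)` of an element of a semigroup. -/
def pw {S : Type} [Semigroup S] (x : S) : ℕ → S
  | 0 => x
  | n + 1 => pw x n * x

lemma pw_coe {S : Type} [Semigroup S] (x : S) (n : ℕ) :
    ((pw x n : S) : WithOne S) = (x : WithOne S) ^ (n + 1) := by
  induction n with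
  | zero => simp [pw]
  | succ n ih => rw [pw, WithOne.coe_mul, ih, pow_succ _ (n + 1)]

lemma map_pw {S T : Type} [Semigroup S] [Semigroup T] (f : S →ₙ* T) (x : S) (n : ℕ) :
    f (pw x n) = pw (f x) n := by
  induction n with
  | zero => rfl
  | succ n ih => rw [pw, map_mul, ih, pw]

lemma pw_group {G : Type} [Group G] (x : G) (n : ℕ) : pw x n = x ^ (n + 1) := by
  induction n with
  | zero => simp [pw]
  | succ n ih => rw [pw, ih, ← pow_succ]

/-- The class of all semigroups dividing one of the groups `G i`: the homomorphic images of the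
subsemigroups of the `G i`. -/
def DivClass {ι : Type} (G : ι → Type) [∀ i, Group (G i)] : SemigroupClass.{0} :=
  fun T _ => ∃ (i : ι) (A : Subsemigroup (G i)) (f : A →ₙ* T), Function.Surjective f

lemma div_sat {S T : Type} [Semigroup S] [Semigroup T] (A : Subsemigroup S) (f : A →ₙ* T)
    (hf : Function.Surjective f) (i : IdInclusion) (h : Satisfies S i) : Satisfies T i := by
  intro φ
  choose a ha using fun n : ℕ => hf (φ (FreeSemigroup.of n))
  let ψ : FreeSemigroup ℕ →ₙ* A := FreeSemigroup.lift a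
  have hψ : f.comp ψ = φ := by
    apply FreeSemigroup.hom_ext
    funext n
    simp [ψ, ha]
  obtain ⟨v, hv, e⟩ := h ((MulMemClass.subtype A).comp ψ)
  refine ⟨v, hv, ?_⟩
  have e1 : ψ i.word = ψ v := Subtype.ext e
  rw [← hψ]
  simp [e1]

lemma self_div {ι : Type} (G : ι → Type) [∀ i, Group (G i)] (j : ι) : DivClass G (G j) :=
  ⟨j, ⊤, MulMemClass.subtype ⊤, fun x => ⟨⟨x, trivial⟩, rfl⟩⟩

lemma div_finite {ι : Type} (G : ι → Type) [∀ i, Group (G i)] [∀ i, Finite (G i)]
    (T : Type) [Semigroup T] (h : DivClass G T) : Finite T := by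
  obtain ⟨i, A, f, hf⟩ := h
  exact Finite.of_surjective f hf

lemma pow_fix {S : Type} [Monoid S] (z a : S) (h : z * a = a) (m : ℕ) : z ^ m * a = a := by
  induction m with
  | zero => simp
  | succ m ih => rw [pow_succ, mul_assoc, h, ih]

lemma div_inclusive {ι : Type} [Nonempty ι] (G : ι → Type) [∀ i, Group (G i)]
    [∀ i, Finite (G i)] : IsInclusiveVariety (DivClass G) := by
  refine ⟨{e | ∀ i, Satisfies (G i) e}, ?_⟩
  intro T _
  constructor
  · rintro ⟨i, A, f, hf⟩ e he
    exact div_sat A f hf e (he i)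
  · intro h
    obtain ⟨i0⟩ := (inferInstance : Nonempty ι)
    rcases isEmpty_or_nonempty T with hT | hT
    · exact ⟨i0, ⊥, ⟨fun x => absurd x.2 Subsemigroup.notMem_bot,
        fun x => absurd x.2 Subsemigroup.notMem_bot⟩, fun t => hT.elim t⟩
    have key : ∀ (φ : FreeSemigroup ℕ →ₙ* T) (u : FreeSemigroup ℕ),
        ∃ (j : ι) (ψ : FreeSemigroup ℕ →ₙ* G j), ∀ v, ψ v = ψ u → φ v = φ u := by
      intro φ u
      by_cases hV : ∃ v, φ v ≠ φ u
      · by_contra hcon
        push Not at hcon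
        let e : IdInclusion := ⟨u, {v | φ v ≠ φ u}, hV⟩
        obtain ⟨v, hv, e2⟩ := h e (fun j ψ => by
            obtain ⟨v, h1, h2⟩ := hcon j ψ
            exact ⟨v, h2, h1.symm⟩) φ
        exact hv e2.symm
      · push Not at hV
        exact ⟨i0, FreeSemigroup.lift (fun _ => 1), fun v _ => hV v⟩
    have hfix : ∀ y a : T, ∃ n, a = pw y n * a := by
      intro y a
      let e : IdInclusion := ⟨FreeSemigroup.of 0,
        {v | ∃ n, v = pw (FreeSemigroup.of 1) n * FreeSemigroup.of 0}, ⟨_, 0, rfl⟩⟩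
      obtain ⟨v, ⟨n, rfl⟩, e2⟩ := h e (fun j ψ => by
        refine ⟨_, ⟨2 * Nat.card (G j) - 1, rfl⟩, ?_⟩
        have hc : 0 < Nat.card (G j) := Nat.card_pos
        rw [map_mul, map_pw, pw_group,
          show 2 * Nat.card (G j) - 1 + 1 = Nat.card (G j) * 2 by omega, pow_mul,
          pow_card_eq_one', one_pow, one_mul]) (FreeSemigroup.lift fun n => if n = 0 then a else y)
      refine ⟨n, ?_⟩
      rw [map_mul, map_pw] at e2
      simpa [e] using e2
    have hleft : ∀ y a b : T, y * a = y * b → a = b := by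
      intro y a b hab
      obtain ⟨n, hn⟩ := hfix y a
      obtain ⟨m, hm⟩ := hfix y b
      have hn' : (y : WithOne T) ^ (n + 1) * (a : WithOne T) = a := by
        rw [← pw_coe, ← WithOne.coe_mul, ← hn]
      have hm' : (y : WithOne T) ^ (m + 1) * (b : WithOne T) = b := by
        rw [← pw_coe, ← WithOne.coe_mul, ← hm]
      have h1 := pow_fix _ _ hn' (m + 1)
      have h2 := pow_fix _ _ hm' (n + 1)
      rw [← pow_mul] at h1 h2
      rw [show (n + 1) * (m + 1) = (n * m + n + m) + 1 by ring, pow_succ, mul_assoc,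
        ← WithOne.coe_mul, hab] at h1
      rw [show (m + 1) * (n + 1) = (n * m + n + m) + 1 by ring, pow_succ, mul_assoc,
        ← WithOne.coe_mul] at h2
      rw [h1] at h2
      exact WithOne.coe_inj.1 h2
    have fac : ∀ (φ : FreeSemigroup ℕ →ₙ* T),
        ∃ (j : ι) (ψ : FreeSemigroup ℕ →ₙ* G j), ∀ v w, ψ v = ψ w → φ v = φ w := by
      intro φ
      obtain ⟨j, ψ, hψ⟩ := key φ (FreeSemigroup.of 0)
      refine ⟨j, ψ, fun v w hvw => ?_⟩
      have hc : 0 < Nat.card (G j) := Nat.card_pos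
      let w' := FreeSemigroup.of 0 * pw v (2 * Nat.card (G j) - 2)
      have hw' : ψ w' * ψ v = ψ (FreeSemigroup.of 0) := by
        change ψ (FreeSemigroup.of 0 * pw v (2 * Nat.card (G j) - 2)) * ψ v = _
        rw [map_mul, map_pw, pw_group, mul_assoc, ← pow_succ,
          show 2 * Nat.card (G j) - 2 + 1 + 1 = Nat.card (G j) * 2 by omega, pow_mul,
          pow_card_eq_one', one_pow, mul_one]
      have h1 : φ (w' * v) = φ (FreeSemigroup.of 0) := hψ _ (by rw [map_mul, hw'])
      have h2 : φ (w' * w) = φ (FreeSemigroup.of 0) := hψ _ (by rw [map_mul, ← hvw, hw'])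
      exact hleft (φ w') _ _ (by rw [← map_mul, ← map_mul, h1, h2])
    have hfin : Finite T := by
      by_contra hinf
      rw [not_finite_iff_infinite] at hinf
      let g := Infinite.natEmbedding T
      obtain ⟨j, ψ, hψ⟩ := fac (FreeSemigroup.lift g)
      refine not_injective_infinite_finite (fun n : ℕ => ψ (FreeSemigroup.of n)) ?_
      intro n m hnm
      have := hψ _ _ hnm
      simpa using this
    obtain ⟨g, hg⟩ := exists_surjective_nat T
    obtain ⟨j, ψ, hψ⟩ := fac (FreeSemigroup.lift g)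
    have hc : ∀ x : ψ.srange, ∃ v, ψ v = x := fun x => x.2
    choose c hc' using hc
    refine ⟨j, ψ.srange, ⟨fun x => FreeSemigroup.lift g (c x), fun x y => ?_⟩, fun t => ?_⟩
    · rw [← map_mul]
      apply hψ
      rw [hc', map_mul, hc', hc']
      rfl
    · obtain ⟨n, rfl⟩ := hg t
      refine ⟨⟨ψ (FreeSemigroup.of n), ⟨_, rfl⟩⟩, ?_⟩
      have := hψ (c ⟨ψ (FreeSemigroup.of n), ⟨_, rfl⟩⟩) (FreeSemigroup.of n) (by rw [hc'])
      simpa using this

lemma ne_general {ι : Type} (G : ι → Type) [∀ i, Group (G i)] [∀ i, Finite (G i)]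
    (X : Type) [Group X] [Infinite X]
    (h : ∀ s : Set X, s.Finite → ∃ (j : ι) (π : X →* G j), Set.InjOn π s) :
    ¬ IsElementary (DivClass G) := by
  rintro ⟨E, hE, hd⟩
  have hX : DivClass G X := by
    refine (hd X).2 ?_
    intro i hi φ
    obtain ⟨j, π, hπ⟩ := h (φ '' (insert i.word i.set)) (((hE i hi).insert _).image _)
    obtain ⟨v, hv, e⟩ := (hd (G j)).1 (self_div G j) i hi ((π : X →ₙ* G j).comp φ)
    exact ⟨v, hv, hπ ⟨_, Set.mem_insert _ _, rfl⟩ ⟨v, Set.mem_insert_of_mem _ hv, rfl⟩ e⟩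
  have := div_finite G X hX
  exact not_finite X

lemma ne_cyclic {ι : Type} (m : ι → ℕ) [∀ i, NeZero (m i)] (hm : ∀ b, ∃ i, b < m i) :
    ¬ IsElementary (DivClass fun i => Multiplicative (ZMod (m i))) := by
  refine ne_general _ (Multiplicative ℤ) ?_
  intro s hs
  obtain ⟨b, hb⟩ := (hs.image fun x => (Multiplicative.toAdd x).natAbs).bddAbove
  obtain ⟨i, hi⟩ := hm (2 * b)
  refine ⟨i, AddMonoidHom.toMultiplicative (Int.castAddHom (ZMod (m i))), ?_⟩
  intro x hx y hy hxy
  have hx' : (Multiplicative.toAdd x).natAbs ≤ b := hb ⟨x, hx, rfl⟩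
  have hy' : (Multiplicative.toAdd y).natAbs ≤ b := hb ⟨y, hy, rfl⟩
  have h1 : ((Multiplicative.toAdd x : ℤ) : ZMod (m i)) = ((Multiplicative.toAdd y : ℤ) : ZMod (m i)) :=
    hxy
  rw [ZMod.intCast_eq_intCast_iff_dvd_sub] at h1
  have h2 : Multiplicative.toAdd y - Multiplicative.toAdd x = 0 := by
    apply Int.eq_zero_of_abs_lt_dvd h1
    have : |Multiplicative.toAdd y - Multiplicative.toAdd x| ≤ 2 * b := by
      rw [abs_le]; omega
    omega
  have h3 : Multiplicative.toAdd x = Multiplicative.toAdd y := by omega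
  exact h3

lemma ne_elab (p : ℕ) [hp : Fact p.Prime] :
    ¬ IsElementary (DivClass fun r : ℕ => Multiplicative (Fin r → ZMod p)) := by
  have : Infinite (Multiplicative (ℕ → ZMod p)) := by
    have : Infinite (ℕ → ZMod p) := inferInstance
    exact this
  refine ne_general _ (Multiplicative (ℕ → ZMod p)) ?_
  intro s hs
  have hn : ∀ f g : Multiplicative (ℕ → ZMod p), ∃ n : ℕ,
      f ≠ g → Multiplicative.toAdd f n ≠ Multiplicative.toAdd g n := by
    intro f g
    by_cases h : f = g
    · exact ⟨0, fun h' => absurd h h'⟩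
    · obtain ⟨n, hn⟩ := Function.ne_iff.1 (fun h' => h h' :
        (Multiplicative.toAdd f : ℕ → ZMod p) ≠ Multiplicative.toAdd g)
      exact ⟨n, fun _ => hn⟩
  choose n hn' using hn
  obtain ⟨b, hb⟩ := (hs.image2 n hs).bddAbove
  refine ⟨b + 1, AddMonoidHom.toMultiplicative
    { toFun := fun f i => f i, map_zero' := rfl, map_add' := fun _ _ => rfl }, ?_⟩
  intro x hx y hy hxy
  by_contra hne
  have h1 : n x y ≤ b := hb ⟨x, hx, y, hy, rfl⟩
  have h2 : (fun i : Fin (b + 1) => Multiplicative.toAdd x i) =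
      fun i : Fin (b + 1) => Multiplicative.toAdd y i := hxy
  exact hn' x y hne (congrFun h2 ⟨n x y, by omega⟩)

end Run7.h675.IV
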