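import Mathlib
import Pool.Agent.Run7.h675.IV.Base

/-! Generic weights and periodic elements. -/

namespace Run7.h675.IV

open Pool.Agent.Results.MP_f75ac6_al.NoMaximal

/-- The weight of a word whose letters have the weights `w`. -/
def wt (w : ℕ → ℕ) (v : FreeSemigroup ℕ) : ℕ := ((letters v).map w).sum

lemma wt_of (w : ℕ → ℕ) (n : ℕ) : wt w (FreeSemigroup.of n) = w n := by simp [wt, letters]

lemma wt_mul (w : ℕ → ℕ) (u v : FreeSemigroup ℕ) : wt w (u * v) = wt w u + wt w v := by
  simp [wt, letters_mul]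

lemma wt_ge (w : ℕ → ℕ) (k : ℕ) (hw : ∀ i, k ≤ w i) (v : FreeSemigroup ℕ) : k ≤ wt w v := by
  induction v using FreeSemigroup.recOnMul with
  | ih1 x => rw [wt_of]; exact hw x
  | ih2 x y h1 h2 => rw [wt_mul]; omega

lemma lift_wt {T : Type} [Semigroup T] (x : T) (w : ℕ → ℕ) (hw : ∀ i, 1 ≤ w i)
    (v : FreeSemigroup ℕ) :
    ((FreeSemigroup.lift (fun i => pw x (w i - 1)) v : T) : WithOne T) =
      (x : WithOne T) ^ wt w v := by
  induction v using FreeSemigroup.recOnMul with
  | ih1 n =>
    rw [FreeSemigroup.lift_of, pw_coe, wt_of]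
    have := hw n
    rw [show w n - 1 + 1 = w n by omega]
  | ih2 a b h1 h2 => rw [map_mul, WithOne.coe_mul, h1, h2, wt_mul, pow_add]

lemma eq_of_perm {S : Type} [CommSemigroup S] (φ : FreeSemigroup ℕ →ₙ* S)
    (u v : FreeSemigroup ℕ) (h : (letters u).Perm (letters v)) : φ u = φ v := by
  have key : ∀ v, ((φ v : S) : WithOne S) =
      ((letters v).map (fun i => ((φ (FreeSemigroup.of i) : S) : WithOne S))).prod := by
    intro v
    induction v using FreeSemigroup.recOnMul with
    | ih1 n => simp [letters]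
    | ih2 a b h1 h2 => rw [map_mul, WithOne.coe_mul, h1, h2, letters_mul, List.map_append,
        List.prod_append]
  apply WithOne.coe_inj.1
  rw [key, key]
  exact (h.map _).prod_eq

lemma digits_unique (B : ℕ) : ∀ (N : ℕ) (c d : ℕ → ℕ), (∀ i, c i < B) → (∀ i, d i < B) →
    ∑ i ∈ Finset.range N, c i * B ^ i = ∑ i ∈ Finset.range N, d i * B ^ i →
    ∀ i < N, c i = d i := by
  intro N
  induction N with
  | zero => intro c d _ _ _ i hi; omega
  | succ N ih =>
    intro c d hc hd h
    have hB : 0 < B := lt_of_le_of_lt (Nat.zero_le _) (hc 0)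
    have e : ∀ c : ℕ → ℕ, ∑ i ∈ Finset.range (N + 1), c i * B ^ i =
        c 0 + B * ∑ i ∈ Finset.range N, c (i + 1) * B ^ i := by
      intro c
      rw [Finset.sum_range_succ', Finset.mul_sum, add_comm]
      congr 1
      · simp
      · exact Finset.sum_congr rfl fun i _ => by ring
    rw [e, e] at h
    have h0 : c 0 = d 0 := by
      have h2 := congrArg (· % B) h
      simp only [Nat.add_mul_mod_self_left] at h2
      rwa [Nat.mod_eq_of_lt (hc 0), Nat.mod_eq_of_lt (hd 0)] at h2
    rw [h0] at h
    have h1 := Nat.eq_of_mul_eq_mul_left hB (Nat.add_left_cancel h)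
    intro i hi
    cases i with
    | zero => exact h0
    | succ i => exact ih _ _ (fun i => hc (i + 1)) (fun i => hd (i + 1)) h1 i (by omega)

lemma sum_count (B N : ℕ) (l : List ℕ) (hN : ∀ i ∈ l, i < N) :
    (l.map fun i => B ^ i).sum = ∑ i ∈ Finset.range N, l.count i * B ^ i := by
  induction l with
  | nil => simp
  | cons a l ih =>
    have ha : a < N := hN a (by simp)
    rw [List.map_cons, List.sum_cons, ih fun i hi => hN i (by simp [hi])]
    have e : ∀ i ∈ Finset.range N, (a :: l).count i * B ^ i =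
        l.count i * B ^ i + if a = i then B ^ i else 0 := by
      intro i _
      rw [List.count_cons]
      by_cases h : a = i
      · simp [h, add_mul]
      · simp [h]
    rw [Finset.sum_congr rfl e, Finset.sum_add_distrib, Finset.sum_ite_eq]
    simp [ha, add_comm]

lemma sum_lt (B N : ℕ) (l : List ℕ) (hN : ∀ i ∈ l, i < N) (hl : l.length < B) :
    (l.map fun i => B ^ i).sum < B ^ N := by
  have hB : 0 < B := by omega
  have h1 : (l.map fun i => B ^ i).sum ≤ (l.map fun i => B ^ i).length • B ^ (N - 1) := by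
    apply List.sum_le_card_nsmul
    intro x hx
    obtain ⟨i, hi, rfl⟩ := List.mem_map.1 hx
    exact Nat.pow_le_pow_right hB (by have := hN i hi; omega)
  rw [List.length_map, smul_eq_mul] at h1
  have hP : 0 < B ^ (N - 1) := Nat.pos_of_ne_zero (by positivity)
  rcases Nat.eq_zero_or_pos N with h0 | h0
  · have : l = [] := by
      cases l with
      | nil => rfl
      | cons a l => have := hN a (by simp); omega
    subst this
    simp [hB]
  · calc _ ≤ l.length * B ^ (N - 1) := h1
      _ < B * B ^ (N - 1) := Nat.mul_lt_mul_of_pos_right hl hP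
      _ = B ^ N := by rw [← pow_succ', show N - 1 + 1 = N by omega]

lemma le_sum_mem (l : List ℕ) (a : ℕ) (h : a ∈ l) : a ≤ l.sum := by
  induction l with
  | nil => simp at h
  | cons b l ih =>
    rcases List.mem_cons.1 h with rfl | h
    · simp
    · have := ih h
      simp only [List.sum_cons]
      omega

/-- The generic weights. -/
def gw (B N i : ℕ) : ℕ := if i < N then B ^ N + B ^ i else B * B ^ N

lemma gw_split (B N : ℕ) (l : List ℕ) (hN : ∀ i ∈ l, i < N) :
    (l.map (gw B N)).sum = l.length * B ^ N + (l.map fun i => B ^ i).sum := by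
  induction l with
  | nil => simp
  | cons a l ih =>
    have ha : a < N := hN a (by simp)
    rw [List.map_cons, List.sum_cons, ih fun i hi => hN i (by simp [hi]), List.map_cons,
      List.sum_cons, List.length_cons, gw, if_pos ha]
    ring

lemma perm_of_weight (u v : List ℕ) (N : ℕ) (hN : ∀ i ∈ u, i < N)
    (h : (v.map (gw (u.length + 1) N)).sum = (u.map (gw (u.length + 1) N)).sum) :
    u.Perm v := by
  have hu := gw_split (u.length + 1) N u hN
  have hsu := sum_lt (u.length + 1) N u hN (by omega)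
  have hvN : ∀ i ∈ v, i < N := by
    by_contra hcon
    push Not at hcon
    obtain ⟨a, ha, haN⟩ := hcon
    have h1 := le_sum_mem (v.map (gw (u.length + 1) N)) (gw (u.length + 1) N a)
      (List.mem_map_of_mem ha)
    rw [gw, if_neg (by omega), add_mul, h, hu] at h1
    omega
  have hv := gw_split (u.length + 1) N v hvN
  generalize hP : (u.length + 1) ^ N = P at *
  have hPpos : 0 < P := by rw [← hP]; positivity
  have hle : v.length < u.length + 1 := by
    by_contra hcon
    push Not at hcon
    have h2 := Nat.mul_le_mul_right P hcon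
    rw [add_mul] at h2
    omega
  have hsv := sum_lt (u.length + 1) N v hvN hle
  rw [hP] at hsv
  have hlen : v.length = u.length := by
    rcases lt_trichotomy v.length u.length with h1 | h1 | h1
    · have h2 := Nat.mul_le_mul_right P (Nat.succ_le_of_lt h1)
      rw [Nat.succ_mul] at h2
      omega
    · exact h1
    · omega
  have hs : (v.map fun i => (u.length + 1) ^ i).sum = (u.map fun i => (u.length + 1) ^ i).sum := by
    rw [hlen] at hv
    omega
  rw [sum_count _ N v hvN, sum_count _ N u hN] at hs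
  have hcount := digits_unique (u.length + 1) N (fun i => v.count i) (fun i => u.count i)
    (fun i => lt_of_le_of_lt List.count_le_length (by omega))
    (fun i => lt_of_le_of_lt List.count_le_length (by omega)) hs
  rw [List.perm_iff_count]
  intro a
  by_cases ha : a < N
  · exact (hcount a ha).symm
  · rw [List.count_eq_zero_of_not_mem fun h => ha (hN a h),
      List.count_eq_zero_of_not_mem fun h => ha (hvN a h)]

/-- An inclusive variety not containing all commutative semigroups consists of periodic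
semigroups with bounded index. -/
lemma dich (M : SemigroupClass.{0}) (hM : IsInclusiveVariety M) (S : Type) [CommSemigroup S]
    (hS : ¬ M S) : ∃ k, 1 ≤ k ∧ ∀ (T : Type) [Semigroup T], M T → ∀ x : T,
      ∃ m, 1 ≤ m ∧ (x : WithOne T) ^ k = (x : WithOne T) ^ (k + m) := by
  obtain ⟨E, hE⟩ := hM
  rw [hE S] at hS
  push Not at hS
  obtain ⟨i, hi, hi2⟩ := hS
  unfold Satisfies at hi2
  push Not at hi2
  obtain ⟨φ, hφ⟩ := hi2
  let u := i.word
  let N := (letters u).sum + 1
  let w : ℕ → ℕ := gw ((letters u).length + 1) N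
  have hw : ∀ j, 1 ≤ w j := by
    intro j
    change 1 ≤ gw ((letters u).length + 1) N j
    unfold gw
    have h1 : 0 < ((letters u).length + 1) ^ N := by positivity
    split_ifs
    · omega
    · exact Nat.mul_pos (by omega) h1
  refine ⟨wt w u, wt_ge w 1 hw u, ?_⟩
  intro T _ hT x
  obtain ⟨v, hv, e⟩ := (hE T).1 hT i hi (FreeSemigroup.lift fun j => pw x (w j - 1))
  have e2 : (x : WithOne T) ^ wt w u = (x : WithOne T) ^ wt w v := by
    rw [← lift_wt x w hw, ← lift_wt x w hw]
    exact congrArg _ e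
  rcases lt_trichotomy (wt w u) (wt w v) with h1 | h1 | h1
  · exact ⟨wt w v - wt w u, by omega, by rw [show wt w u + (wt w v - wt w u) = wt w v by omega, e2]⟩
  · exfalso
    apply hφ v hv
    apply eq_of_perm
    refine perm_of_weight _ _ N ?_ h1.symm
    intro j hj
    exact Nat.lt_succ_of_le (le_sum_mem _ _ hj)
  · refine ⟨wt w u - wt w v, by omega, ?_⟩
    rw [pow_add, e2, ← pow_add, show wt w v + (wt w u - wt w v) = wt w u by omega, e2]

section Mon

variable {S : Type} [Monoid S] (y : S)

lemma D_sub (k a b : ℕ) (ha : y ^ k = y ^ (k + a)) (hb : y ^ k = y ^ (k + b)) (hab : a ≤ b) :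
    y ^ k = y ^ (k + (b - a)) := by
  calc y ^ k = y ^ (k + b) := hb
    _ = y ^ (k + a) * y ^ (b - a) := by rw [← pow_add, show k + a + (b - a) = k + b by omega]
    _ = y ^ k * y ^ (b - a) := by rw [← ha]
    _ = y ^ (k + (b - a)) := (pow_add _ _ _).symm

lemma D_mul (k a : ℕ) (ha : y ^ k = y ^ (k + a)) (t : ℕ) : y ^ k = y ^ (k + t * a) := by
  induction t with
  | zero => simp
  | succ t ih =>
    rw [show k + (t + 1) * a = (k + t * a) + a by ring, pow_add y (k + t * a), ← ih, ← pow_add,
      ← ha]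

lemma D_of_eq (k m a b : ℕ) (hm : 1 ≤ m) (h : y ^ k = y ^ (k + m)) (hab : a < b)
    (e : y ^ a = y ^ b) : y ^ k = y ^ (k + (b - a)) := by
  have h1 := D_mul y k m h a
  have h2 : a ≤ k + a * m := by nlinarith
  obtain ⟨s, hs⟩ := Nat.exists_eq_add_of_le h2
  have h3 : y ^ (k + a * m) = y ^ (k + a * m) * y ^ (b - a) := by
    rw [← pow_add, hs, pow_add, e, ← pow_add, show a + s + (b - a) = b + s by omega]
  rw [← h1] at h3
  rw [pow_add]
  exact h3

end Mon

/-- The cyclic group in the variety generated by a periodic element. -/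
lemma per (M : SemigroupClass.{0}) (hM : IsInclusiveVariety M) (T : Type) [Semigroup T]
    (hT : M T) (x : T) (k : ℕ) (hk : 1 ≤ k)
    (h : ∃ m, 1 ≤ m ∧ (x : WithOne T) ^ k = (x : WithOne T) ^ (k + m)) :
    ∃ m, 1 ≤ m ∧ M (Multiplicative (ZMod m)) ∧
      (x : WithOne T) ^ k = (x : WithOne T) ^ (k + m) := by
  classical
  obtain ⟨E, hE⟩ := hM
  have hsp := Nat.find_spec h
  have hmin : ∀ {m}, m < Nat.find h → ¬ (1 ≤ m ∧ (x : WithOne T) ^ k = (x : WithOne T) ^ (k + m)) :=
    fun {m} hm => Nat.find_min h hm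
  generalize Nat.find h = m0 at hsp hmin
  obtain ⟨hm0, hx⟩ := hsp
  have : NeZero m0 := ⟨by omega⟩
  have hdvd : ∀ d, (x : WithOne T) ^ k = (x : WithOne T) ^ (k + d) → m0 ∣ d := by
    intro d hd
    have h1 := D_sub (x : WithOne T) k (d / m0 * m0) d (D_mul _ k m0 hx _) hd
      (Nat.div_mul_le_self d m0)
    have h2 : d - d / m0 * m0 = d % m0 := by
      have := Nat.div_add_mod' d m0
      omega
    rw [h2] at h1
    by_contra hnd
    have h3 : 1 ≤ d % m0 := by
      rcases Nat.eq_zero_or_pos (d % m0) with h | h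
      · exact absurd (Nat.dvd_of_mod_eq_zero h) hnd
      · exact h
    exact hmin (Nat.mod_lt d (by omega)) ⟨h3, h1⟩
  refine ⟨m0, hm0, ?_, hx⟩
  rw [hE]
  intro i hi ψ
  let w : ℕ → ℕ := fun n => k * m0 + (Multiplicative.toAdd (ψ (FreeSemigroup.of n))).val
  have hw : ∀ n, k ≤ w n := by
    intro n
    change k ≤ k * m0 + _
    have : k * 1 ≤ k * m0 := Nat.mul_le_mul_left k hm0
    omega
  have hcast : ∀ v, ((wt w v : ℕ) : ZMod m0) = Multiplicative.toAdd (ψ v) := by
    intro v
    induction v using FreeSemigroup.recOnMul with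
    | ih1 n => rw [wt_of]; simp [w]
    | ih2 a b h1 h2 => rw [wt_mul, map_mul, toAdd_mul, Nat.cast_add, h1, h2]
  obtain ⟨v, hv, e⟩ := (hE T).1 hT i hi (FreeSemigroup.lift fun j => pw x (w j - 1))
  have hw1 : ∀ n, 1 ≤ w n := fun n => hk.trans (hw n)
  have e2 : (x : WithOne T) ^ wt w i.word = (x : WithOne T) ^ wt w v := by
    rw [← lift_wt x w hw1, ← lift_wt x w hw1]
    exact congrArg _ e
  refine ⟨v, hv, ?_⟩
  have goal : ((wt w i.word : ℕ) : ZMod m0) = ((wt w v : ℕ) : ZMod m0) := by
    rcases lt_trichotomy (wt w i.word) (wt w v) with h1 | h1 | h1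
    · obtain ⟨c, hc⟩ := hdvd _ (D_of_eq _ k m0 _ _ hm0 hx h1 e2)
      have h4 : wt w v = wt w i.word + m0 * c := by omega
      rw [h4]
      simp
    · rw [h1]
    · obtain ⟨c, hc⟩ := hdvd _ (D_of_eq _ k m0 _ _ hm0 hx h1 e2.symm)
      have h4 : wt w i.word = wt w v + m0 * c := by omega
      rw [h4]
      simp
  rw [hcast, hcast] at goal
  exact goal

end Run7.h675.IV
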