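import Mathlib
import Pool.Agent.Run7.h675.IV.Base

/-! Tarski groups: facts about subgroups and homomorphisms, and non-elementarity. -/

namespace Run7.h675.IV

open Pool.Agent.Results.MP_f75ac6_al.NoMaximal

/-- `G` is a Tarski group for the prime `p`: it is infinite, of exponent `p`, and its proper
subgroups have order `1` or `p`. -/
structure IsTarski (p : ℕ) (G : Type) [Group G] : Prop where
  prime : p.Prime
  infinite : Infinite G
  exponent : ∀ x : G, x ^ p = 1
  proper : ∀ H : Subgroup G, H ≠ ⊤ → Nat.card H = 1 ∨ Nat.card H = p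

lemma pw_mem {G : Type} [Group G] (A : Subsemigroup G) (a : G) (ha : a ∈ A) (n : ℕ) :
    pw a n ∈ A := by
  induction n with
  | zero => exact ha
  | succ n ih => exact A.mul_mem ih ha

/-- A nonempty subsemigroup of a group of exponent `p` is a subgroup. -/
def toSub {G : Type} [Group G] (p : ℕ) (hp : 2 ≤ p) (hG : ∀ x : G, x ^ p = 1)
    (A : Subsemigroup G) (hA : ∃ a, a ∈ A) : Subgroup G where
  carrier := A
  mul_mem' := A.mul_mem
  one_mem' := by
    obtain ⟨a, ha⟩ := hA
    have := pw_mem A a ha (p - 1)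
    rwa [pw_group, show p - 1 + 1 = p by omega, hG] at this
  inv_mem' := by
    intro x hx
    have h1 := pw_mem A x hx (p - 2)
    rw [pw_group] at h1
    have h2 : x⁻¹ = x ^ (p - 2 + 1) := by
      rw [inv_eq_iff_mul_eq_one, ← pow_succ', show p - 2 + 1 + 1 = p by omega, hG]
    change x⁻¹ ∈ A
    rw [h2]
    exact h1

lemma mem_toSub {G : Type} [Group G] (p : ℕ) (hp : 2 ≤ p) (hG : ∀ x : G, x ^ p = 1)
    (A : Subsemigroup G) (hA : ∃ a, a ∈ A) (x : G) : x ∈ toSub p hp hG A hA ↔ x ∈ A := Iff.rfl

lemma inj_or_const {G T : Type} [Group G] [Semigroup T]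
    (hs : ∀ N : Subgroup G, N.Normal → N = ⊥ ∨ N = ⊤) (f : G →ₙ* T) :
    Function.Injective f ∨ ∀ x, f x = f 1 := by
  have h1 : f 1 * f 1 = f 1 := by rw [← map_mul, mul_one]
  let N : Subgroup G :=
    { carrier := {x | f x = f 1}
      mul_mem' := by
        intro a b ha hb
        change f (a * b) = f 1
        rw [map_mul, show f a = f 1 from ha, show f b = f 1 from hb, h1]
      one_mem' := rfl
      inv_mem' := by
        intro x hx
        change f x⁻¹ = f 1
        calc f x⁻¹ = f (x⁻¹ * 1) := by rw [mul_one]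
          _ = f x⁻¹ * f x := by rw [map_mul, show f x = f 1 from hx]
          _ = f 1 := by rw [← map_mul, inv_mul_cancel] }
  have hN : N.Normal := ⟨by
    intro n hn g
    change f (g * n * g⁻¹) = f 1
    rw [map_mul, map_mul, show f n = f 1 from hn, ← map_mul, mul_one, ← map_mul,
      mul_inv_cancel]⟩
  rcases hs N hN with h | h
  · left
    intro x y hxy
    have h2 : x⁻¹ * y ∈ N := by
      change f (x⁻¹ * y) = f 1
      rw [map_mul, ← hxy, ← map_mul, inv_mul_cancel]
    rw [h, Subgroup.mem_bot, inv_mul_eq_one] at h2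
    exact h2
  · right
    intro x
    have : x ∈ N := by rw [h]; trivial
    exact this

section Facts

variable {p : ℕ} {G : Type} [Group G] (h : IsTarski p G)

include h

lemma tcomm (H : Subgroup G) (hH : H ≠ ⊤) (a b : G) (ha : a ∈ H) (hb : b ∈ H) :
    a * b = b * a := by
  rcases h.proper H hH with h1 | h1
  · have := (Nat.card_eq_one_iff_unique.1 h1).1
    have h2 : (⟨a, ha⟩ : H) = ⟨b, hb⟩ := Subsingleton.elim _ _
    have h3 : a = b := congrArg Subtype.val h2
    rw [h3]
  · have : Fact p.Prime := ⟨h.prime⟩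
    have := isCyclic_of_prime_card h1
    have h2 := (IsCyclic.commGroup (α := H)).mul_comm ⟨a, ha⟩ ⟨b, hb⟩
    exact congrArg Subtype.val h2

lemma tfin (H : Subgroup G) (hH : H ≠ ⊤) : Finite H := by
  apply Nat.finite_of_card_ne_zero
  rcases h.proper H hH with h1 | h1
  · omega
  · rw [h1]; exact h.prime.ne_zero

lemma ttop (H : Subgroup G) (hH : (H : Set G).Finite) : H ≠ ⊤ := by
  intro e
  have := h.infinite
  rw [e] at hH
  exact Set.infinite_univ hH

lemma tzp (x : G) : (Subgroup.zpowers x : Set G).Finite :=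
  finite_zpowers.2 (isOfFinOrder_iff_pow_eq_one.2 ⟨p, h.prime.pos, h.exponent x⟩)

lemma tsimple (N : Subgroup G) (hN : N.Normal) : N = ⊥ ∨ N = ⊤ := by
  by_contra hcon
  push Not at hcon
  obtain ⟨hb, ht⟩ := hcon
  have hc : Nat.card N = p := by
    rcases h.proper N ht with h1 | h1
    · exact absurd (Subgroup.eq_bot_of_card_eq N h1) hb
    · exact h1
  have hNf := tfin h N ht
  obtain ⟨y, hy⟩ : ∃ y, y ∉ N := by
    by_contra hcon
    push Not at hcon
    exact ht ((Subgroup.eq_top_iff' N).2 hcon)
  have hset : ((Subgroup.zpowers y ⊔ N : Subgroup G) : Set G).Finite := by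
    rw [Subgroup.mul_normal]
    exact (tzp h y).mul (Set.toFinite _)
  have hne := ttop h _ hset
  have hle : N ≤ Subgroup.zpowers y ⊔ N := le_sup_right
  have hyH : y ∈ Subgroup.zpowers y ⊔ N :=
    (le_sup_left : Subgroup.zpowers y ≤ _) (Subgroup.mem_zpowers y)
  have hHf := tfin h _ hne
  have hp2 := h.prime.two_le
  have hcH : Nat.card (Subgroup.zpowers y ⊔ N : Subgroup G) ≤ Nat.card N := by
    rcases h.proper _ hne with h1 | h1
    · rw [h1, hc]; omega
    · rw [h1, hc]
  have := Subgroup.eq_of_le_of_card_ge hle hcH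
  rw [this] at hy
  exact hy hyH

lemma tnoncomm : ∃ a b : G, a * b ≠ b * a := by
  by_contra hcon
  push Not at hcon
  have := h.infinite
  obtain ⟨x, hx⟩ := exists_ne (1 : G)
  have hn : (Subgroup.zpowers x).Normal := ⟨by
    intro n hn g
    rw [hcon g n, mul_assoc, mul_inv_cancel, mul_one]
    exact hn⟩
  rcases tsimple h _ hn with h1 | h1
  · exact hx (Subgroup.zpowers_eq_bot.1 h1)
  · exact ttop h _ (tzp h x) h1

/-- A homomorphism from the free semigroup whose image is not commutative is surjective. -/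
lemma tsurj (ψ : FreeSemigroup ℕ →ₙ* G) (v w : FreeSemigroup ℕ) (hvw : ψ v * ψ w ≠ ψ w * ψ v) :
    Function.Surjective ψ := by
  let H := toSub p h.prime.two_le h.exponent ψ.srange ⟨ψ v, v, rfl⟩
  have hH : H = ⊤ := by
    by_contra hne
    exact hvw (tcomm h H hne _ _ ⟨v, rfl⟩ ⟨w, rfl⟩)
  intro g
  have : g ∈ H := by rw [hH]; trivial
  exact this

lemma tsurj_inf (ψ : FreeSemigroup ℕ →ₙ* G) (hψ : Function.Injective fun n => ψ (FreeSemigroup.of n)) :
    Function.Surjective ψ := by
  let H := toSub p h.prime.two_le h.exponent ψ.srange ⟨ψ (FreeSemigroup.of 0), _, rfl⟩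
  have hH : H = ⊤ := by
    by_contra hne
    have := tfin h H hne
    refine not_injective_infinite_finite (fun n : ℕ => (⟨ψ (FreeSemigroup.of n), _, rfl⟩ : H)) ?_
    intro n m hnm
    exact hψ (congrArg Subtype.val hnm)
  intro g
  have : g ∈ H := by rw [hH]; trivial
  exact this

end Facts

instance : Countable (FreeSemigroup ℕ) := letters_injective.countable

lemma tcountable {p : ℕ} {G : Type} [Group G] (h : IsTarski p G) : Countable G := by
  obtain ⟨a, b, hab⟩ := tnoncomm h
  have := tsurj h (FreeSemigroup.lift fun n => if n = 0 then a else b) (FreeSemigroup.of 0)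
    (FreeSemigroup.of 1) (by simpa using hab)
  exact this.countable

/-- The ultrapower is uncountable. -/
lemma germ_uncountable (G : Type) [Infinite G] :
    ¬ Countable ((Filter.hyperfilter ℕ : Filter ℕ).Germ G) := by
  intro hc
  obtain ⟨s, hs⟩ := exists_surjective_nat ((Filter.hyperfilter ℕ : Filter ℕ).Germ G)
  have hrep : ∀ i, ∃ f : ℕ → G, ((f : ℕ → G) : (Filter.hyperfilter ℕ : Filter ℕ).Germ G) = s i :=
    fun i => Quotient.exists_rep (s i)
  choose f hf using hrep
  classical
  have hd : ∀ k : ℕ, ∃ g : G, g ∉ (Finset.range (k + 1)).image fun i => f i k :=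
    fun k => Infinite.exists_notMem_finset _
  choose d hd using hd
  obtain ⟨i, hi⟩ := hs ((d : ℕ → G) : (Filter.hyperfilter ℕ : Filter ℕ).Germ G)
  rw [← hf i, Filter.Germ.coe_eq] at hi
  have h2 : ∀ᶠ k in (Filter.hyperfilter ℕ : Filter ℕ), i ≤ k :=
    Filter.hyperfilter_le_cofinite (by
      rw [Nat.cofinite_eq_atTop]
      exact Filter.eventually_ge_atTop i)
  obtain ⟨k, hk, hk2⟩ := (Filter.Eventually.and hi h2).exists
  refine hd k (Finset.mem_image.2 ⟨i, Finset.mem_range.2 (by omega), hk⟩)

/-- The class of the divisors of a countably infinite group is not elementary. -/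
lemma ne_single (G : Type) [Group G] [Countable G] [Infinite G] :
    ¬ IsElementary (DivClass fun _ : Unit => G) := by
  rintro ⟨E, hE, hd⟩
  have hX : DivClass (fun _ : Unit => G) ((Filter.hyperfilter ℕ : Filter ℕ).Germ G) := by
    refine (hd _).2 ?_
    intro i hi φ
    have hrep : ∀ n, ∃ f : ℕ → G, ((f : ℕ → G) : (Filter.hyperfilter ℕ : Filter ℕ).Germ G) =
        φ (FreeSemigroup.of n) := fun n => Quotient.exists_rep (φ (FreeSemigroup.of n))
    choose g hg using hrep
    have key : ∀ v, φ v = ((fun k => FreeSemigroup.lift (fun n => g n k) v : ℕ → G) :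
        (Filter.hyperfilter ℕ : Filter ℕ).Germ G) := by
      intro v
      induction v using FreeSemigroup.recOnMul with
      | ih1 n => rw [← hg n]; simp
      | ih2 a b h1 h2 =>
        rw [map_mul, h1, h2, ← Filter.Germ.coe_mul]
        congr 1
        funext k
        simp
    have hG := (hd G).1 (self_div (fun _ : Unit => G) ()) i hi
    have hall : (⋃ v ∈ i.set, {k : ℕ | FreeSemigroup.lift (fun n => g n k) i.word =
        FreeSemigroup.lift (fun n => g n k) v}) ∈ (Filter.hyperfilter ℕ : Ultrafilter ℕ) := by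
      apply Filter.mem_of_superset Filter.univ_mem
      intro k _
      obtain ⟨v, hv, e⟩ := hG (FreeSemigroup.lift fun n => g n k)
      exact Set.mem_biUnion hv e
    rw [Ultrafilter.finite_biUnion_mem_iff (hE i hi)] at hall
    obtain ⟨v, hv, e⟩ := hall
    refine ⟨v, hv, ?_⟩
    rw [key, key, Filter.Germ.coe_eq]
    exact e
  obtain ⟨_, A, f, hf⟩ := hX
  exact germ_uncountable G hf.countable

end Run7.h675.IV
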