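import Mathlib
import Pool.Agent.Run7.h675.IV.Tarski

/-! The divisors of a Tarski group form an inclusive variety. -/

namespace Run7.h675.IV

open Pool.Agent.Results.MP_f75ac6_al.NoMaximal

lemma fac1 {p : ℕ} (hp : 2 ≤ p) (G : Type) [Group G] (hG : ∀ x : G, x ^ p = 1)
    (T : Type) [Semigroup T] (h : ∀ e, Satisfies G e → Satisfies T e)
    (φ : FreeSemigroup ℕ →ₙ* T) :
    ∃ ψ : FreeSemigroup ℕ →ₙ* G, ∀ v w, ψ v = ψ w → φ v = φ w := by
  have key : ∀ (u : FreeSemigroup ℕ),
      ∃ ψ : FreeSemigroup ℕ →ₙ* G, ∀ v, ψ v = ψ u → φ v = φ u := by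
    intro u
    by_cases hV : ∃ v, φ v ≠ φ u
    · by_contra hcon
      push Not at hcon
      let e : IdInclusion := ⟨u, {v | φ v ≠ φ u}, hV⟩
      obtain ⟨v, hv, e2⟩ := h e (fun ψ => by
          obtain ⟨v, h1, h2⟩ := hcon ψ
          exact ⟨v, h2, h1.symm⟩) φ
      exact hv e2.symm
    · push Not at hV
      exact ⟨FreeSemigroup.lift (fun _ => 1), fun v _ => hV v⟩
  have hfix : ∀ y a : T, a = pw y (p - 1) * a := by
    intro y a
    let e : IdInclusion := ⟨FreeSemigroup.of 0,
      {pw (FreeSemigroup.of 1) (p - 1) * FreeSemigroup.of 0}, ⟨_, rfl⟩⟩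
    obtain ⟨v, hv, e2⟩ := h e (fun ψ => by
      refine ⟨_, rfl, ?_⟩
      rw [map_mul, map_pw, pw_group, show p - 1 + 1 = p by omega, hG, one_mul])
      (FreeSemigroup.lift fun n => if n = 0 then a else y)
    have hv' : v = pw (FreeSemigroup.of 1) (p - 1) * FreeSemigroup.of 0 := hv
    subst hv'
    rw [map_mul, map_pw] at e2
    simpa [e] using e2
  have hleft : ∀ y a b : T, y * a = y * b → a = b := by
    intro y a b hab
    have hn : (y : WithOne T) ^ (p - 1 + 1) * (a : WithOne T) = a := by
      rw [← pw_coe, ← WithOne.coe_mul, ← hfix]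
    have hm : (y : WithOne T) ^ (p - 1 + 1) * (b : WithOne T) = b := by
      rw [← pw_coe, ← WithOne.coe_mul, ← hfix]
    rw [pow_succ, mul_assoc, ← WithOne.coe_mul, hab] at hn
    rw [pow_succ, mul_assoc, ← WithOne.coe_mul] at hm
    rw [hn] at hm
    exact WithOne.coe_inj.1 hm
  obtain ⟨ψ, hψ⟩ := key (FreeSemigroup.of 0)
  refine ⟨ψ, fun v w hvw => ?_⟩
  let w' := FreeSemigroup.of 0 * pw v (p - 2)
  have hw' : ψ w' * ψ v = ψ (FreeSemigroup.of 0) := by
    change ψ (FreeSemigroup.of 0 * pw v (p - 2)) * ψ v = _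
    rw [map_mul, map_pw, pw_group, mul_assoc, ← pow_succ,
      show p - 2 + 1 + 1 = p by omega, hG, mul_one]
  have h1 : φ (w' * v) = φ (FreeSemigroup.of 0) := hψ _ (by rw [map_mul, hw'])
  have h2 : φ (w' * w) = φ (FreeSemigroup.of 0) := hψ _ (by rw [map_mul, ← hvw, hw'])
  exact hleft (φ w') _ _ (by rw [← map_mul, ← map_mul, h1, h2])

lemma empty_div (G : Type) [Group G] (T : Type) [Semigroup T] (hT : IsEmpty T) :
    DivClass (fun _ : Unit => G) T :=
  ⟨(), ⊥, ⟨fun x => absurd x.2 Subsemigroup.notMem_bot,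
    fun x => absurd x.2 Subsemigroup.notMem_bot⟩, fun t => hT.elim t⟩

lemma div_of_countable {p : ℕ} (hp : 2 ≤ p) (G : Type) [Group G] (hG : ∀ x : G, x ^ p = 1)
    (T : Type) [Semigroup T] (h : ∀ e, Satisfies G e → Satisfies T e) (hc : Countable T) :
    DivClass (fun _ : Unit => G) T := by
  rcases isEmpty_or_nonempty T with hT | hT
  · exact empty_div G T hT
  obtain ⟨g, hg⟩ := exists_surjective_nat T
  obtain ⟨ψ, hψ⟩ := fac1 hp G hG T h (FreeSemigroup.lift g)
  have hc : ∀ x : ψ.srange, ∃ v, ψ v = x := fun x => x.2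
  choose c hc' using hc
  refine ⟨(), ψ.srange, ⟨fun x => FreeSemigroup.lift g (c x), fun x y => ?_⟩, fun t => ?_⟩
  · rw [← map_mul]
    apply hψ
    rw [hc', map_mul, hc', hc']
    rfl
  · obtain ⟨n, rfl⟩ := hg t
    refine ⟨⟨ψ (FreeSemigroup.of n), ⟨_, rfl⟩⟩, ?_⟩
    have := hψ (c ⟨ψ (FreeSemigroup.of n), ⟨_, rfl⟩⟩) (FreeSemigroup.of n) (by rw [hc'])
    simpa using this

/-- A semigroup satisfying all inclusions of a Tarski group is countable. -/
lemma sat_countable {p : ℕ} {G : Type} [Group G] (hT : IsTarski p G)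
    (T : Type) [Semigroup T] (h : ∀ e, Satisfies G e → Satisfies T e) : Countable T := by
  by_contra hcount
  have hinf : Infinite T := by
    rw [← not_finite_iff_infinite]
    intro hfin
    exact hcount inferInstance
  have fac := fac1 hT.prime.two_le G hT.exponent T h
  -- `T` is not commutative
  have hnc : ∃ a b : T, a * b ≠ b * a := by
    by_contra hcon
    push Not at hcon
    let g := Infinite.natEmbedding T
    obtain ⟨ψ, hψ⟩ := fac (FreeSemigroup.lift g)
    have hinj : Function.Injective fun n => ψ (FreeSemigroup.of n) := by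
      intro n m hnm
      have := hψ _ _ hnm
      simpa using this
    have hsurj := tsurj_inf hT ψ hinj
    choose c hc using hsurj
    let f : G →ₙ* T := ⟨fun x => FreeSemigroup.lift g (c x), fun x y => by
      rw [← map_mul]
      apply hψ
      rw [hc, map_mul, hc, hc]⟩
    have hf : ∀ v, f (ψ v) = FreeSemigroup.lift g v := fun v => hψ _ _ (hc _)
    rcases inj_or_const (tsimple hT) f with h1 | h1
    · obtain ⟨a, b, hab⟩ := tnoncomm hT
      exact hab (h1 (by rw [map_mul, map_mul]; exact hcon _ _))
    · have h2 := hf (FreeSemigroup.of 0)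
      have h3 := hf (FreeSemigroup.of 1)
      rw [h1] at h2 h3
      rw [h2] at h3
      have : g 0 = g 1 := by simp at h3
      exact absurd (g.injective this) (by norm_num)
  obtain ⟨a, b, hab⟩ := hnc
  apply hcount
  have hsur : Function.Surjective (FreeSemigroup.lift (fun n : ℕ => if n = 0 then a else b)) := by
    intro t
    let φ : FreeSemigroup ℕ →ₙ* T :=
      FreeSemigroup.lift (fun n : ℕ => if n = 0 then a else if n = 1 then b else t)
    obtain ⟨ψ, hψ⟩ := fac φ
    let em : FreeSemigroup ℕ →ₙ* FreeSemigroup ℕ :=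
      FreeSemigroup.lift (fun n : ℕ => if n = 0 then FreeSemigroup.of 0 else FreeSemigroup.of 1)
    have hnc : (ψ.comp em) (FreeSemigroup.of 0) * (ψ.comp em) (FreeSemigroup.of 1) ≠
        (ψ.comp em) (FreeSemigroup.of 1) * (ψ.comp em) (FreeSemigroup.of 0) := by
      intro e
      rw [← map_mul, ← map_mul] at e
      have e2 := hψ _ _ e
      apply hab
      simpa [em, φ] using e2
    obtain ⟨v, hv⟩ := tsurj hT (ψ.comp em) _ _ hnc (ψ (FreeSemigroup.of 2))
    have h2 := hψ _ _ hv
    refine ⟨v, ?_⟩
    have h3 : φ.comp em = FreeSemigroup.lift (fun n : ℕ => if n = 0 then a else b) := by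
      apply FreeSemigroup.hom_ext
      funext n
      by_cases hn : n = 0
      · simp [hn, em, φ]
      · simp [hn, em, φ]
    rw [← h3]
    simpa [φ] using h2
  exact hsur.countable

lemma t_defined {p : ℕ} {G : Type} [Group G] (hT : IsTarski p G) :
    DefinedBy (DivClass fun _ : Unit => G) {e | Satisfies G e} := by
  intro T _
  constructor
  · rintro ⟨i, A, f, hf⟩ e he
    exact div_sat A f hf e he
  · intro h
    exact div_of_countable hT.prime.two_le G hT.exponent T h (sat_countable hT T h)

lemma c_defined {p : ℕ} (hp : 2 ≤ p) (G : Type) [Group G] [Finite G]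
    (hG : ∀ x : G, x ^ p = 1) : DefinedBy (DivClass fun _ : Unit => G) {e | Satisfies G e} := by
  intro T _
  constructor
  · rintro ⟨i, A, f, hf⟩ e he
    exact div_sat A f hf e he
  · intro h
    apply div_of_countable hp G hG T h
    have hfin : Finite T := by
      by_contra hinf
      rw [not_finite_iff_infinite] at hinf
      let g := Infinite.natEmbedding T
      obtain ⟨ψ, hψ⟩ := fac1 hp G hG T h (FreeSemigroup.lift g)
      refine not_injective_infinite_finite (fun n : ℕ => ψ (FreeSemigroup.of n)) ?_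
      intro n m hnm
      have := hψ _ _ hnm
      simpa using this
    infer_instance

/-- Compactness: a semigroup satisfying the finite inclusions of a finite group satisfies all of
its inclusions. -/
lemma compactness (G : Type) [Group G] [Finite G] (T : Type) [Semigroup T]
    (h : ∀ e : IdInclusion, e.set.Finite → Satisfies G e → Satisfies T e) (e : IdInclusion)
    (he : Satisfies G e) : Satisfies T e := by
  by_contra hT
  unfold Satisfies at hT
  push Not at hT
  obtain ⟨φ, hφ⟩ := hT
  let _ : TopologicalSpace G := ⊥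
  have : DiscreteTopology G := ⟨rfl⟩
  have hcont : ∀ v : FreeSemigroup ℕ, Continuous fun g : ℕ → G => FreeSemigroup.lift g v := by
    intro v
    induction v using FreeSemigroup.recOnMul with
    | ih1 n => simpa using continuous_apply n
    | ih2 a b h1 h2 =>
      simp only [map_mul]
      exact (continuous_of_discreteTopology (f := fun q : G × G => q.1 * q.2)).comp
        (h1.prodMk h2)
  have hne : (⋂ v : e.set, {g : ℕ → G | FreeSemigroup.lift g e.word ≠
      FreeSemigroup.lift g (v : FreeSemigroup ℕ)}).Nonempty := by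
    apply CompactSpace.iInter_nonempty
    · intro v
      exact (isClosed_discrete {q : G × G | q.1 ≠ q.2}).preimage
        ((hcont e.word).prodMk (hcont (v : FreeSemigroup ℕ)))
    · intro s
      by_contra hemp
      rw [Set.not_nonempty_iff_eq_empty] at hemp
      have hs : (((fun v : e.set => (v : FreeSemigroup ℕ)) '' s : Set (FreeSemigroup ℕ))).Nonempty := by
        by_contra hs
        rw [Set.not_nonempty_iff_eq_empty, Set.image_eq_empty, Finset.coe_eq_empty] at hs
        rw [hs] at hemp
        simp at hemp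
      obtain ⟨v, ⟨v', hv', rfl⟩, e2⟩ := h ⟨e.word, _, hs⟩ (s.finite_toSet.image _) (by
        intro ψ
        by_contra hcon
        push Not at hcon
        have hmem : (fun n => ψ (FreeSemigroup.of n)) ∈ (⋂ v ∈ s, {g : ℕ → G |
            FreeSemigroup.lift g e.word ≠ FreeSemigroup.lift g (v : FreeSemigroup ℕ)}) := by
          rw [Set.mem_iInter₂]
          intro v hv
          have hlift : FreeSemigroup.lift (fun n => ψ (FreeSemigroup.of n)) = ψ := by
            apply FreeSemigroup.hom_ext
            funext n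
            simp
          change FreeSemigroup.lift (fun n => ψ (FreeSemigroup.of n)) e.word ≠
            FreeSemigroup.lift (fun n => ψ (FreeSemigroup.of n)) (v : FreeSemigroup ℕ)
          rw [hlift]
          exact hcon _ ⟨v, hv, rfl⟩
        rw [hemp] at hmem
        exact hmem) φ
      exact hφ _ v'.2 e2
  obtain ⟨g, hg⟩ := hne
  obtain ⟨v, hv, e2⟩ := he (FreeSemigroup.lift g)
  exact (Set.mem_iInter.1 hg ⟨v, hv⟩) e2

end Run7.h675.IV
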